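import Mathlib
import Pool.Agent.helper15.PB.NumDefs

/-!
# MP_0069fb_gt, final numerical inequality: monotonicity lemmas
-/

set_option autoImplicit false

namespace Pool.Agent.helper93.NU

open Pool.Agent.helper15.PB

/-- concavity of `a/T - b/T^2 + g T` for `0 ≤ a ≤ b`, `T ≤ 3` -/
lemma conc {a b g T T1 T2 L : ℝ} (ha : 0 ≤ a) (hab : a ≤ b) (h1 : 0 < T1) (hT1 : T1 ≤ T) (hT2 : T ≤ T2)
    (h3 : T2 ≤ 3) (hL1 : L ≤ a / T1 - b / T1 ^ 2 + g * T1) (hL2 : L ≤ a / T2 - b / T2 ^ 2 + g * T2) :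
    L ≤ a / T - b / T ^ 2 + g * T := by
  rcases eq_or_lt_of_le (hT1.trans hT2) with h | h
  · have : T = T1 := le_antisymm (by linarith) hT1
    rw [this]; exact hL1
  have hT : 0 < T := by linarith
  have h2 : 0 < T2 := by linarith
  have key : (T2 - T1) * (a / T - b / T ^ 2 + g * T) =
      (T2 - T) * (a / T1 - b / T1 ^ 2 + g * T1) + (T - T1) * (a / T2 - b / T2 ^ 2 + g * T2)
      + (T2 - T1) * (T - T1) * (T2 - T) * ((b * (T1 * T + T * T2 + T1 * T2) - a * (T1 * T * T2)) /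
        (T1 * T * T2) ^ 2) := by
    field_simp
    ring
  have hb : 0 ≤ b * (T1 * T + T * T2 + T1 * T2) - a * (T1 * T * T2) := by
    have e1 : T1 * T * T2 ≤ T1 * T + T * T2 + T1 * T2 := by
      have : T1 * T * T2 ≤ T1 * T * 3 := by gcongr
      nlinarith [mul_pos h1 hT, mul_pos hT h2, mul_pos h1 h2, mul_le_mul_of_nonneg_left (hT1.trans hT2) hT.le,
        mul_le_mul_of_nonneg_left hT2 h1.le]
    have e2 : 0 ≤ T1 * T * T2 := by positivity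
    nlinarith [mul_le_mul hab e1 e2 (ha.trans hab)]
  have h4 : 0 ≤ (T2 - T1) * (T - T1) * (T2 - T) * ((b * (T1 * T + T * T2 + T1 * T2) - a * (T1 * T * T2)) /
        (T1 * T * T2) ^ 2) := by
    apply mul_nonneg
    · apply mul_nonneg
      · apply mul_nonneg <;> linarith
      · linarith
    · positivity
  have h5 : (T2 - T1) * L ≤ (T2 - T1) * (a / T - b / T ^ 2 + g * T) := by
    rw [key]
    nlinarith [mul_le_mul_of_nonneg_left hL1 (sub_nonneg.2 hT2), mul_le_mul_of_nonneg_left hL2 (sub_nonneg.2 hT1)]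
  exact le_of_mul_le_mul_left h5 (by linarith)

/-- bound for `H` -/
lemma H_le {e T ω H c : ℝ} (k : NK e T ω H c) {T1 T2 w2 H0 : ℝ} (hT1 : 3 / 2 ≤ T1) (h1 : T1 ≤ T) (h2 : T ≤ T2)
    (hT2 : T2 ≤ 3) (hw : ω ≤ w2) (hw2 : w2 ≤ 2 / 3)
    (hH : w2 * (T1 * (3 - T1)) ≤ H0 * (8 - w2 * (T2 + 11 / 3))) : H ≤ H0 := by
  have hω := k.ω0
  have hH0 := k.H0
  have hH1 := k.H1
  have hHT := k.HT
  have hp : 0 < 8 - w2 * (T2 + 11 / 3) := by nlinarith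
  have e1 : H * (8 - ω * (T + 3 + 2 * H)) ≤ ω * (T * (3 - T)) := by nlinarith
  have e2 : ω * (T * (3 - T)) ≤ w2 * (T1 * (3 - T1)) := by
    apply mul_le_mul hw _ _ (by linarith)
    · nlinarith
    · nlinarith
  have e3 : H * (8 - w2 * (T2 + 11 / 3)) ≤ H * (8 - ω * (T + 3 + 2 * H)) := by
    apply mul_le_mul_of_nonneg_left _ hH0
    have : ω * (T + 3 + 2 * H) ≤ w2 * (T2 + 11 / 3) := by
      apply mul_le_mul hw (by linarith) (by linarith) (by linarith)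
    linarith
  exact le_of_mul_le_mul_right ((e3.trans e1).trans (e2.trans hH)) hp

/-- `C3(T)` in another form -/
lemma C3_eq (e T ω H : ℝ) (hT : T ≠ 0) :
    C3 e T ω H T = (e * (4 - ω * H / 2)) / T - (e * (4 + ω * H ^ 2 / 6)) / T ^ 2 + (1 / (3 * e) + ω / 6) * T := by
  unfold C3
  rcases eq_or_ne e 0 with h | h
  · subst h; simp; ring
  field_simp
  ring

lemma w_le {e T ω H c : ℝ} (k : NK e T ω H c) : ω ≤ 2 / 3 := by
  have := k.ωe
  have hc := k.c0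
  have he0 := k.e0
  have hep : 0 < e := by linarith
  have h4 : ω * e ^ 2 ≤ 4 * e - 6 := by nlinarith
  have h5 : ω * e ^ 2 ≤ 2 / 3 * e ^ 2 := by nlinarith [sq_nonneg (e - 3)]
  exact le_of_mul_le_mul_right h5 (by positivity)

lemma C3_mono_w {e1 T w1 ω H : ℝ} (he1 : 0 < e1) (heT : e1 ≤ T) (hT : 3 / 2 ≤ T) (hw : w1 ≤ ω)
    (hH0 : 0 ≤ H) (hH1 : H ≤ 1 / 3) :
    (e1 * (4 - w1 * H / 2)) / T - (e1 * (4 + w1 * H ^ 2 / 6)) / T ^ 2 + (1 / (3 * e1) + w1 / 6) * T ≤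
      (e1 * (4 - ω * H / 2)) / T - (e1 * (4 + ω * H ^ 2 / 6)) / T ^ 2 + (1 / (3 * e1) + ω / 6) * T := by
  have hTp : 0 < T := by linarith
  have : 0 ≤ (ω - w1) * (T / 6 - e1 * (H / 2) / T - e1 * (H ^ 2 / 6) / T ^ 2) := by
    apply mul_nonneg (by linarith)
    have a1 : e1 * (H / 2) / T ≤ H / 2 := by
      rw [div_le_iff₀ hTp]; nlinarith
    have a2 : e1 * (H ^ 2 / 6) / T ^ 2 ≤ H ^ 2 / 6 := by
      rw [div_le_iff₀ (by positivity)]
      have : e1 ≤ T ^ 2 := by nlinarith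
      nlinarith [mul_le_mul_of_nonneg_left this (sq_nonneg H)]
    nlinarith
  have e0 : (e1 * (4 - ω * H / 2)) / T - (e1 * (4 + ω * H ^ 2 / 6)) / T ^ 2 + (1 / (3 * e1) + ω / 6) * T -
      ((e1 * (4 - w1 * H / 2)) / T - (e1 * (4 + w1 * H ^ 2 / 6)) / T ^ 2 + (1 / (3 * e1) + w1 / 6) * T) =
      (ω - w1) * (T / 6 - e1 * (H / 2) / T - e1 * (H ^ 2 / 6) / T ^ 2) := by
    field_simp; ring
  linarith

lemma C3_mono_e {e e1 T ω H : ℝ} (he1 : 3 / 2 ≤ e1) (h1e : e1 ≤ e) (hT : 3 / 2 ≤ T) (hT3 : T ≤ 3)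
    (hω : ω ≤ 2 / 3) (hH0 : 0 ≤ H) (hH1 : H ≤ 1 / 3) :
    (e1 * (4 - ω * H / 2)) / T - (e1 * (4 + ω * H ^ 2 / 6)) / T ^ 2 + (1 / (3 * e1) + ω / 6) * T ≤
      (e * (4 - ω * H / 2)) / T - (e * (4 + ω * H ^ 2 / 6)) / T ^ 2 + (1 / (3 * e) + ω / 6) * T := by
  have hTp : 0 < T := by linarith
  have hep : 0 < e := by linarith
  have he1p : 0 < e1 := by linarith
  have : 0 ≤ (e - e1) * ((4 * (T - 1) - ω * H / 2 * T - ω * H ^ 2 / 6) / T ^ 2 - T / (3 * (e * e1))) := by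
    apply mul_nonneg (by linarith)
    rw [sub_nonneg, div_le_div_iff₀ (by positivity) (by positivity)]
    have b1 : 9 / 4 ≤ e * e1 := by nlinarith
    have b2 : ω * H ≤ 2 / 9 := by
      calc ω * H ≤ 2 / 3 * (1 / 3) := mul_le_mul hω hH1 hH0 (by norm_num)
        _ = 2 / 9 := by norm_num
    have b3 : ω * H ^ 2 ≤ 2 / 27 := by
      calc ω * H ^ 2 = (ω * H) * H := by ring
        _ ≤ 2 / 9 * (1 / 3) := mul_le_mul b2 hH1 hH0 (by norm_num)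
        _ = 2 / 27 := by norm_num
    have b4 : T * T ^ 2 ≤ 27 / 8 + 63 / 4 * (T - 3 / 2) := by
      have : T * T ^ 2 - (27 / 8 + 63 / 4 * (T - 3 / 2)) = -((T - 3 / 2) * (3 - T) * (T + 9 / 2)) := by ring
      have h2 : 0 ≤ (T - 3 / 2) * (3 - T) * (T + 9 / 2) :=
        mul_nonneg (mul_nonneg (by linarith) (by linarith)) (by linarith)
      linarith
    have b4' : ω * H / 2 * T ≤ 1 / 9 * T := by nlinarith
    have b6 : 4 / 27 * (T * T ^ 2) ≤ 4 * (T - 1) - ω * H / 2 * T - ω * H ^ 2 / 6 := by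
      linarith
    have b8 : 0 ≤ T * T ^ 2 := by positivity
    have b7 : 4 / 27 * (T * T ^ 2) * (27 / 4) ≤
      (4 * (T - 1) - ω * H / 2 * T - ω * H ^ 2 / 6) * (3 * (e * e1)) := by
      apply mul_le_mul b6 (by linarith) (by norm_num) (by linarith)
    linarith
  have e0 : (e * (4 - ω * H / 2)) / T - (e * (4 + ω * H ^ 2 / 6)) / T ^ 2 + (1 / (3 * e) + ω / 6) * T -
      ((e1 * (4 - ω * H / 2)) / T - (e1 * (4 + ω * H ^ 2 / 6)) / T ^ 2 + (1 / (3 * e1) + ω / 6) * T) =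
      (e - e1) * ((4 * (T - 1) - ω * H / 2 * T - ω * H ^ 2 / 6) / T ^ 2 - T / (3 * (e * e1))) := by
    field_simp; ring
  linarith

lemma C3T_ge {e T ω H c : ℝ} (k : NK e T ω H c) {e1 T1 T2 w1 H0 C0 : ℝ} (he1 : 3 / 2 ≤ e1) (h1e : e1 ≤ e)
    (hT1 : 3 / 2 ≤ T1) (h1 : T1 ≤ T) (h2 : T ≤ T2) (hT2 : T2 ≤ 3) (hw1 : 0 ≤ w1) (hw : w1 ≤ ω)
    (hH0 : H ≤ H0)
    (hC1 : C0 ≤ (e1 * (4 - w1 * H0 / 2)) / T1 - (e1 * (4 + w1 * H0 ^ 2 / 6)) / T1 ^ 2 + (1 / (3 * e1) + w1 / 6) * T1)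
    (hC2 : C0 ≤ (e1 * (4 - w1 * H0 / 2)) / T2 - (e1 * (4 + w1 * H0 ^ 2 / 6)) / T2 ^ 2 + (1 / (3 * e1) + w1 / 6) * T2)
    (hwH : w1 * H0 ≤ 8) :
    C0 ≤ C3 e T ω H T := by
  have hω := k.ω0
  have hHH := k.H0
  have hH1 := k.H1
  have hT3 := k.T3
  have heT := k.eT
  have he0 := k.e0
  have hTp : 0 < T := by linarith
  have he1p : 0 < e1 := by linarith
  have hH0' : 0 ≤ H0 := hHH.trans hH0
  have s1 : C0 ≤ (e1 * (4 - w1 * H0 / 2)) / T - (e1 * (4 + w1 * H0 ^ 2 / 6)) / T ^ 2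
      + (1 / (3 * e1) + w1 / 6) * T := by
    apply conc (T1 := T1) (T2 := T2) _ _ (by linarith) h1 h2 hT2 hC1 hC2
    · have : 0 ≤ 4 - w1 * H0 / 2 := by linarith
      positivity
    · have : 0 ≤ w1 * H0 / 2 := by positivity
      have : 0 ≤ w1 * H0 ^ 2 / 6 := by positivity
      apply mul_le_mul_of_nonneg_left _ he1p.le
      linarith
  have s2 : (e1 * (4 - w1 * H0 / 2)) / T - (e1 * (4 + w1 * H0 ^ 2 / 6)) / T ^ 2 + (1 / (3 * e1) + w1 / 6) * T ≤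
      (e1 * (4 - w1 * H / 2)) / T - (e1 * (4 + w1 * H ^ 2 / 6)) / T ^ 2 + (1 / (3 * e1) + w1 / 6) * T := by
    gcongr
  rw [C3_eq _ _ _ _ hTp.ne']
  exact s1.trans (s2.trans ((C3_mono_w he1p (by linarith) (by linarith) hw hHH hH1).trans
    (C3_mono_e he1 h1e (by linarith) hT3 (w_le k) hHH hH1)))

lemma C32_ge {e T ω H c : ℝ} (k : NK e T ω H c) {e1 T1 w1 H0 C0 : ℝ} (he1 : 3 / 2 ≤ e1) (h1e : e1 ≤ e)
    (hT1 : 2 ≤ T1) (h1 : T1 ≤ T) (hw1 : 0 ≤ w1) (hw : w1 ≤ ω) (hH0 : H ≤ H0)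
    (hC : C0 ≤ e1 / 4 * (4 - w1 * H0 - w1 * H0 ^ 2 / 6) + 2 / (3 * e1) + w1 * (T1 - 4 / 3) / 2) :
    C0 ≤ C3 e T ω H 2 := by
  have hω := k.ω0
  have hHH := k.H0
  have hH1 := k.H1
  have hT3 := k.T3
  have heT := k.eT
  have he0 := k.e0
  have hTp : 0 < T := by linarith
  have he1p : 0 < e1 := by linarith
  have hep : 0 < e := by linarith
  have hH0' : 0 ≤ H0 := hHH.trans hH0
  have hω1 := w_le k
  have E : C3 e T ω H 2 = e / 4 * (4 - ω * H - ω * H ^ 2 / 6) + 2 / (3 * e) + ω * (T - 4 / 3) / 2 := by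
    unfold C3; field_simp; ring
  rw [E]
  have s1 : e1 / 4 * (4 - w1 * H0 - w1 * H0 ^ 2 / 6) ≤ e1 / 4 * (4 - w1 * H - w1 * H ^ 2 / 6) := by
    gcongr
  have s2 : w1 * (T1 - 4 / 3) / 2 ≤ w1 * (T - 4 / 3) / 2 := by gcongr
  have s3 : 0 ≤ (ω - w1) * ((T - 4 / 3) / 2 - e1 / 4 * (H + H ^ 2 / 6)) := by
    apply mul_nonneg (by linarith)
    have a1 : H + H ^ 2 / 6 ≤ 19 / 54 := by nlinarith
    have a2 : e1 / 4 * (H + H ^ 2 / 6) ≤ T / 4 * (19 / 54) := by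
      apply mul_le_mul (by linarith) a1 (by positivity) (by linarith)
    linarith
  have s4 : 0 ≤ (e - e1) * ((4 - ω * H - ω * H ^ 2 / 6) / 4 - 2 / (3 * (e * e1))) := by
    apply mul_nonneg (by linarith)
    have b1 : 9 / 4 ≤ e * e1 := by nlinarith
    have b2 : ω * H ≤ 2 / 9 := by
      calc ω * H ≤ 2 / 3 * (1 / 3) := mul_le_mul hω1 hH1 hHH (by norm_num)
        _ = 2 / 9 := by norm_num
    have b3 : ω * H ^ 2 ≤ 2 / 27 := by
      calc ω * H ^ 2 = (ω * H) * H := by ring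
        _ ≤ 2 / 9 * (1 / 3) := mul_le_mul b2 hH1 hHH (by norm_num)
        _ = 2 / 27 := by norm_num
    have b4 : 2 / (3 * (e * e1)) ≤ 2 / (3 * (9 / 4)) := by gcongr
    norm_num at b4
    linarith
  have e1' : e / 4 * (4 - ω * H - ω * H ^ 2 / 6) + 2 / (3 * e) + ω * (T - 4 / 3) / 2 -
      (e1 / 4 * (4 - w1 * H - w1 * H ^ 2 / 6) + 2 / (3 * e1) + w1 * (T - 4 / 3) / 2) =
      (ω - w1) * ((T - 4 / 3) / 2 - e1 / 4 * (H + H ^ 2 / 6)) +
      (e - e1) * ((4 - ω * H - ω * H ^ 2 / 6) / 4 - 2 / (3 * (e * e1))) := by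
    field_simp; ring
  linarith

/-- `CB` bounded below when `y = e/T ≥ y1`, `(4 - c0) y1^2 ≥ 1` -/
lemma CB_ge1 {e T ω H c : ℝ} (k : NK e T ω H c) {e1 T2 q C0 : ℝ} (he1 : 0 < e1) (h1e : e1 ≤ e)
    (h2 : T ≤ T2) (hq : q ≤ 4 - ω * H / 2) (h : T2 ^ 2 ≤ q * e1 ^ 2)
    (hC : 2 * C0 ≤ T2 / e1 + q * (e1 / T2)) : C0 ≤ CB e T ω H := by
  have hT3 := k.T3
  have heT := k.eT
  have he0 := k.e0
  have hep : 0 < e := by linarith
  have hTp : 0 < T := by linarith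
  have hT2p : 0 < T2 := by linarith
  have hqp : 0 < q := by
    by_contra hh
    have : q * e1 ^ 2 ≤ 0 := mul_nonpos_of_nonpos_of_nonneg (by linarith) (by positivity)
    nlinarith [sq_pos_of_pos hT2p]
  have s0 : 0 ≤ (4 - ω * H / 2 - q) * (e / T) := mul_nonneg (by linarith) (by positivity)
  have s1 : 0 ≤ (e / T - e1 / T2) * (q - T2 * T / (e1 * e)) := by
    apply mul_nonneg
    · rw [sub_nonneg]; gcongr
    · rw [sub_nonneg, div_le_iff₀ (by positivity)]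
      have : T2 * T * e1 ≤ T2 * T2 * e := by
        calc T2 * T * e1 ≤ T2 * T2 * e1 := by gcongr
          _ ≤ T2 * T2 * e := by gcongr
      have h3 : T2 * T2 * e ≤ q * e1 ^ 2 * e := by
        have := mul_le_mul_of_nonneg_right h hep.le
        nlinarith
      have h4 : T2 * T * e1 ≤ (q * (e1 * e)) * e1 := by nlinarith
      exact le_of_mul_le_mul_right h4 he1
  have e0 : 2 * CB e T ω H - (T2 / e1 + q * (e1 / T2)) = (4 - ω * H / 2 - q) * (e / T) +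
      (e / T - e1 / T2) * (q - T2 * T / (e1 * e)) := by
    unfold CB; field_simp; ring
  linarith

/-- `CB` bounded below when `y = e/T ≤ y2`, `(4 - c0) y2^2 ≤ 1` -/
lemma CB_ge2 {e T ω H c : ℝ} (k : NK e T ω H c) {e2 T1 q C0 : ℝ} (h2e : e ≤ e2)
    (hT1 : 0 < T1) (h1 : T1 ≤ T) (hq : q ≤ 4 - ω * H / 2) (h : q * e2 ^ 2 ≤ T1 ^ 2)
    (hC : 2 * C0 ≤ T1 / e2 + q * (e2 / T1)) : C0 ≤ CB e T ω H := by
  have hT3 := k.T3
  have heT := k.eT
  have he0 := k.e0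
  have hep : 0 < e := by linarith
  have hTp : 0 < T := by linarith
  have he2p : 0 < e2 := by linarith
  have s0 : 0 ≤ (4 - ω * H / 2 - q) * (e / T) := mul_nonneg (by linarith) (by positivity)
  have s1 : 0 ≤ (e2 / T1 - e / T) * (T1 * T / (e2 * e) - q) := by
    apply mul_nonneg
    · rw [sub_nonneg]; gcongr
    · rw [sub_nonneg, le_div_iff₀ (by positivity)]
      have h5 : T1 * T1 * e ≤ T1 * T * e2 := by
        calc T1 * T1 * e ≤ T1 * T * e := by gcongr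
          _ ≤ T1 * T * e2 := by gcongr
      have h3 : q * e2 ^ 2 * e ≤ T1 ^ 2 * e := mul_le_mul_of_nonneg_right h hep.le
      have h4 : (q * (e2 * e)) * e2 ≤ T1 * T * e2 := by nlinarith
      exact le_of_mul_le_mul_right h4 he2p
  have e0 : 2 * CB e T ω H - (T1 / e2 + q * (e2 / T1)) = (4 - ω * H / 2 - q) * (e / T) +
      (e2 / T1 - e / T) * (T1 * T / (e2 * e) - q) := by
    unfold CB; field_simp; ring
  linarith

end Pool.Agent.helper93.NU
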