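import Mathlib
import Pool.Agent.helper15.PB.NumDefs
import Pool.Agent.helper93.NU.Real

/-!
# MP_0069fb_gt, final numerical inequality: the two kinds of leaves
-/

set_option autoImplicit false

namespace Pool.Agent.helper93.NU

open Pool.Agent.helper15.PB

lemma leafE {e T ω H c : ℝ} (k : NK e T ω H c) {e2 w2 H0 C0 p C : ℝ} (h2e : e ≤ e2) (hw : ω ≤ w2)
    (hH0 : H ≤ H0) (hC : IsC e T ω H C) (hC0 : C0 ≤ C) (hd : 0 < 1 - w2 * H0 / 2 - e2 * w2)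
    (hp : w2 ^ 2 * e2 ^ 2 ≤ 4 * p * (1 - w2 * H0 / 2 - e2 * w2)) (hp8 : p ≤ 0.08)
    (h : (1 + p) ^ 2 ≤ (1 - 3.3 * p) * (C0 - 1 - p)) : ECond e T ω H := by
  have hω := k.ω0
  have hHH := k.H0
  have he0 := k.e0
  have hep : 0 < e := by linarith
  have hw20 : 0 ≤ w2 := by linarith
  have he20 : 0 ≤ e2 := by linarith
  have hd' : 1 - w2 * H0 / 2 - e2 * w2 ≤ 1 - ω * H / 2 - e * ω := by
    have : ω * H ≤ w2 * H0 := by gcongr
    have : e * ω ≤ e2 * w2 := by gcongr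
    linarith
  have hdp : 0 < 1 - ω * H / 2 - e * ω := by linarith
  set ε := ω ^ 2 * e ^ 2 / (4 * (1 - ω * H / 2 - e * ω)) with hε
  have hε0 : 0 ≤ ε := by positivity
  have hεp : ε ≤ p := by
    rw [hε, div_le_iff₀ (by positivity)]
    have h1 : ω ^ 2 * e ^ 2 ≤ w2 ^ 2 * e2 ^ 2 := by gcongr
    have hp0 : 0 ≤ p := by
      by_contra hh
      have : 4 * p * (1 - w2 * H0 / 2 - e2 * w2) < 0 := by
        apply mul_neg_of_neg_of_pos <;> linarith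
      have : 0 ≤ w2 ^ 2 * e2 ^ 2 := by positivity
      linarith
    nlinarith [mul_le_mul_of_nonneg_left hd' hp0]
  have hp0 : 0 ≤ p := hε0.trans hεp
  have hCp : 0 < C0 - 1 - p := by
    by_contra hh
    have h1 : (1 - 3.3 * p) * (C0 - 1 - p) ≤ 0 :=
      mul_nonpos_of_nonneg_of_nonpos (by linarith) (by linarith)
    have : 0 < (1 + p) ^ 2 := by positivity
    linarith
  refine ⟨hdp, C, ε, hC, hε, by linarith, by linarith, ?_⟩
  calc (1 + ε) ^ 2 ≤ (1 + p) ^ 2 := by gcongr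
    _ ≤ (1 - 3.3 * p) * (C0 - 1 - p) := h
    _ ≤ (1 - 3.3 * ε) * (C - 1 - ε) := by
        apply mul_le_mul <;> linarith

lemma gam_le {e T ω H c : ℝ} (k : NK e T ω H c) {e1 c1 : ℝ} (he1 : 0 < e1) (h1e : e1 ≤ e) (hc : c1 ≤ c) :
    gam e ω c ≤ 2 * (1 - c1 - e1 * ω) / e1 ^ 2 := by
  have he0 := k.e0
  have hep : 0 < e := by linarith
  have hT3 := k.T3
  have heT := k.eT
  have hωe := k.ωe
  have hc0 := k.c0
  have e0 : 2 * (1 - c1 - e1 * ω) / e1 ^ 2 - gam e ω c = 2 * (c - c1) / e1 ^ 2 +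
      2 * (e - e1) / (e1 ^ 2 * e ^ 2) * ((1 - c) * (e + e1) - ω * (e * e1)) := by
    unfold gam; field_simp; ring
  have h1 : 0 ≤ (1 - c) * (e + e1) - ω * (e * e1) := by
    have hc1 : 0 ≤ 1 - c := by
      by_contra hh
      have : e * (1 - c) < 0 := mul_neg_of_pos_of_neg hep (by linarith)
      have : 0 < ω * e ^ 2 := mul_pos k.ω0 (by positivity)
      linarith
    have h2 : ω * e ^ 2 ≤ 2 * e * (1 - c) := by nlinarith
    have h3 : ω * e ≤ 2 * (1 - c) := by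
      have : (ω * e) * e ≤ (2 * (1 - c)) * e := by linarith
      exact le_of_mul_le_mul_right this hep
    have h4 : ω * e * e1 ≤ 2 * (1 - c) * e1 := mul_le_mul_of_nonneg_right h3 he1.le
    have h5 : (1 - c) * e1 ≤ (1 - c) * e := mul_le_mul_of_nonneg_left h1e hc1
    linarith
  have h2 : 0 ≤ 2 * (c - c1) / e1 ^ 2 := div_nonneg (by linarith) (by positivity)
  have h3 : 0 ≤ 2 * (e - e1) / (e1 ^ 2 * e ^ 2) * ((1 - c) * (e + e1) - ω * (e * e1)) := by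
    apply mul_nonneg _ h1
    exact div_nonneg (by linarith) (by positivity)
  linarith

lemma gam_ge {e T ω H c : ℝ} (k : NK e T ω H c) {e2 w2 c2 : ℝ} (h2e : e ≤ e2) (he2 : e2 ≤ 3)
    (hw : ω ≤ w2) (hc : c ≤ c2) : 2 * (1 - c2 - e2 * w2) / e2 ^ 2 ≤ gam e ω c := by
  have he0 := k.e0
  have hep : 0 < e := by linarith
  have he2p : 0 < e2 := by linarith
  have hωe := k.ωe
  have hc0 := k.c0
  have e0 : gam e ω c - 2 * (1 - c2 - e2 * w2) / e2 ^ 2 = 2 * (c2 - c) / e2 ^ 2 + 2 * (w2 - ω) / e2 +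
      2 * (e2 - e) / (e2 ^ 2 * e ^ 2) * ((1 - c) * (e + e2) - ω * (e * e2)) := by
    unfold gam; field_simp; ring
  have h1 : 0 ≤ (1 - c) * (e + e2) - ω * (e * e2) := by
    have hc1 : 0 ≤ 1 - c := by
      by_contra hh
      have : e * (1 - c) < 0 := mul_neg_of_pos_of_neg hep (by linarith)
      have : 0 < ω * e ^ 2 := mul_pos k.ω0 (by positivity)
      linarith
    -- multiply by e
    have h2 : ω * e ^ 2 * e2 ≤ (4 * e * (1 - c) - 6) * e2 := mul_le_mul_of_nonneg_right hωe he2p.le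
    have h3 : (1 - c) * ((3 * e2 - e) * e) ≤ 6 * e2 := by
      have h4 : (3 * e2 - e) * e ≤ 2 * e2 * e2 := by nlinarith
      have h5 : (3 * e2 - e) * e ≤ 6 * e2 := by nlinarith
      have h6 : 0 ≤ (3 * e2 - e) * e := mul_nonneg (by linarith) hep.le
      nlinarith
    have h6 : 0 ≤ e * ((1 - c) * (e + e2) - ω * (e * e2)) := by nlinarith
    exact nonneg_of_mul_nonneg_right h6 hep
  have h2 : 0 ≤ 2 * (c2 - c) / e2 ^ 2 := div_nonneg (by linarith) (by positivity)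
  have h2' : 0 ≤ 2 * (w2 - ω) / e2 := div_nonneg (by linarith) (by positivity)
  have h3 : 0 ≤ 2 * (e2 - e) / (e2 ^ 2 * e ^ 2) * ((1 - c) * (e + e2) - ω * (e * e2)) := by
    apply mul_nonneg _ h1
    exact div_nonneg (by linarith) (by positivity)
  linarith

lemma wL_le {e T ω H c : ℝ} (k : NK e T ω H c) {e2 c1 L0 : ℝ} (h2e : e ≤ e2) (he2 : e2 ≤ 3)
    (hc1 : 0 ≤ c1) (hc : c1 ≤ c) (hL : 4 * e2 * (1 - c1) - 6 ≤ L0 * e2 ^ 2) : wL e c ≤ L0 := by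
  have he0 := k.e0
  have hep : 0 < e := by linarith
  have he2p : 0 < e2 := by linarith
  have h1 : wL e c ≤ (4 * e2 * (1 - c1) - 6) / e2 ^ 2 := by
    have e0 : (4 * e2 * (1 - c1) - 6) / e2 ^ 2 - wL e c = 4 * (c - c1) / e +
        (e2 - e) / (e ^ 2 * e2 ^ 2) * (6 * (e + e2) - 4 * (1 - c1) * (e * e2)) := by
      unfold wL; field_simp; ring
    have h2 : 0 ≤ 4 * (c - c1) / e := div_nonneg (by linarith) hep.le
    have h3 : 0 ≤ (e2 - e) / (e ^ 2 * e2 ^ 2) * (6 * (e + e2) - 4 * (1 - c1) * (e * e2)) := by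
      apply mul_nonneg
      · exact div_nonneg (by linarith) (by positivity)
      · have h4 : e * e2 ≤ 3 * e := by nlinarith
        have h5 : 0 ≤ c1 * (e * e2) := by positivity
        nlinarith
    linarith
  refine h1.trans ?_
  rw [div_le_iff₀ (by positivity)]
  exact hL

lemma wL_ge {e T ω H c : ℝ} (k : NK e T ω H c) : ω ≤ wL e c := by
  have he0 := k.e0
  have hep : 0 < e := by linarith
  unfold wL
  rw [le_div_iff₀ (by positivity)]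
  exact k.ωe

lemma A_mono_w {a b r e1 T w1 ω H c1 : ℝ} (ha : 0 ≤ a) (hb0 : 0 ≤ b)
    (hb : b ≤ 16 * r) (hr : 2 / 3 ≤ r) (har : a ≤ 8 * r) (he1p : 0 < e1) (heT : e1 ≤ T) (hT : 3 / 2 ≤ T)
    (hw : w1 ≤ ω) (hHH : 0 ≤ H) (hH1 : H ≤ 1 / 3) :
    a * (4 - w1 * H / 2) / T - b * (4 + w1 * H ^ 2 / 6) / T ^ 2 +
      (-(r * (2 * (1 - c1 - e1 * w1) / e1 ^ 2))) * T ≤
      a * (4 - ω * H / 2) / T - b * (4 + ω * H ^ 2 / 6) / T ^ 2 +
      (-(r * (2 * (1 - c1 - e1 * ω) / e1 ^ 2))) * T := by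
  have hTp : 0 < T := by linarith
  have e0 : a * (4 - ω * H / 2) / T - b * (4 + ω * H ^ 2 / 6) / T ^ 2 +
    (-(r * (2 * (1 - c1 - e1 * ω) / e1 ^ 2))) * T - (a * (4 - w1 * H / 2) / T -
    b * (4 + w1 * H ^ 2 / 6) / T ^ 2 + (-(r * (2 * (1 - c1 - e1 * w1) / e1 ^ 2))) * T) =
    (ω - w1) * (2 * r * (T / e1) - a * (H / 2) / T - b * (H ^ 2 / 6) / T ^ 2) := by
    field_simp; ring
  have t1 : 1 ≤ T / e1 := by rw [le_div_iff₀ he1p]; linarith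
  have t2 : a * (H / 2) / T ≤ a / 9 := by
    rw [div_le_iff₀ hTp]
    have : H / 2 ≤ T / 9 := by linarith
    calc a * (H / 2) ≤ a * (T / 9) := mul_le_mul_of_nonneg_left this ha
      _ = a / 9 * T := by ring
  have t3 : b * (H ^ 2 / 6) / T ^ 2 ≤ b / 100 := by
    rw [div_le_iff₀ (by positivity)]
    have h1 : H ^ 2 ≤ 1 / 9 := by nlinarith
    have h2 : 9 / 4 ≤ T ^ 2 := by nlinarith
    have : H ^ 2 / 6 ≤ T ^ 2 / 100 := by linarith
    calc b * (H ^ 2 / 6) ≤ b * (T ^ 2 / 100) := mul_le_mul_of_nonneg_left this hb0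
      _ = b / 100 * T ^ 2 := by ring
  have t5 : 2 * r ≤ 2 * r * (T / e1) := by
    have : 0 ≤ 2 * r * (T / e1 - 1) := mul_nonneg (by linarith) (by linarith)
    linarith
  have t4 : 0 ≤ (ω - w1) * (2 * r * (T / e1) - a * (H / 2) / T - b * (H ^ 2 / 6) / T ^ 2) := by
    apply mul_nonneg (by linarith)
    linarith
  linarith

lemma A_ge {e T ω H c : ℝ} (k : NK e T ω H c) {a b r e1 T1 T2 w1 c1 H0 A0 : ℝ} (ha : 0 ≤ a) (hab : a ≤ b)
    (hb : b ≤ 16 * r) (hr : 2 / 3 ≤ r) (har : a ≤ 8 * r)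
    (he1 : 3 / 2 ≤ e1) (h1e : e1 ≤ e)
    (hT1 : 3 / 2 ≤ T1) (h1 : T1 ≤ T) (h2 : T ≤ T2) (hT2 : T2 ≤ 3) (hw1 : 0 ≤ w1) (hw : w1 ≤ ω)
    (hc : c1 ≤ c) (hH0 : H ≤ H0) (hwH : w1 * H0 ≤ 8)
    (hA1 : A0 ≤ a * (4 - w1 * H0 / 2) / T1 - b * (4 + w1 * H0 ^ 2 / 6) / T1 ^ 2 +
      (-(r * (2 * (1 - c1 - e1 * w1) / e1 ^ 2))) * T1)
    (hA2 : A0 ≤ a * (4 - w1 * H0 / 2) / T2 - b * (4 + w1 * H0 ^ 2 / 6) / T2 ^ 2 +
      (-(r * (2 * (1 - c1 - e1 * w1) / e1 ^ 2))) * T2) :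
    A0 ≤ a * (4 - ω * H / 2) / T - b * (4 + ω * H ^ 2 / 6) / T ^ 2 - r * gam e ω c * T := by
  have hω := k.ω0
  have hHH := k.H0
  have hH1 := k.H1
  have hT3 := k.T3
  have heT := k.eT
  have he0 := k.e0
  have hTp : 0 < T := by linarith
  have he1p : 0 < e1 := by linarith
  have hH0' : 0 ≤ H0 := hHH.trans hH0
  have hbp : 0 ≤ b := ha.trans hab
  have s1 : A0 ≤ a * (4 - w1 * H0 / 2) / T - b * (4 + w1 * H0 ^ 2 / 6) / T ^ 2 +
      (-(r * (2 * (1 - c1 - e1 * w1) / e1 ^ 2))) * T := by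
    apply conc (T1 := T1) (T2 := T2) _ _ (by linarith) h1 h2 hT2 hA1 hA2
    · have : 0 ≤ 4 - w1 * H0 / 2 := by linarith
      positivity
    · have : 0 ≤ w1 * H0 / 2 := by positivity
      have : 0 ≤ w1 * H0 ^ 2 / 6 := by positivity
      apply mul_le_mul hab (by linarith) (by linarith) hbp
  have s2 : a * (4 - w1 * H0 / 2) / T - b * (4 + w1 * H0 ^ 2 / 6) / T ^ 2 +
      (-(r * (2 * (1 - c1 - e1 * w1) / e1 ^ 2))) * T ≤
      a * (4 - w1 * H / 2) / T - b * (4 + w1 * H ^ 2 / 6) / T ^ 2 +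
      (-(r * (2 * (1 - c1 - e1 * w1) / e1 ^ 2))) * T := by
    gcongr
  have s3 := A_mono_w (c1 := c1) ha (ha.trans hab) hb hr har he1p (h1e.trans heT) (by linarith) hw hHH hH1
  have s4 : a * (4 - ω * H / 2) / T - b * (4 + ω * H ^ 2 / 6) / T ^ 2 +
      (-(r * (2 * (1 - c1 - e1 * ω) / e1 ^ 2))) * T ≤
      a * (4 - ω * H / 2) / T - b * (4 + ω * H ^ 2 / 6) / T ^ 2 - r * gam e ω c * T := by
    have := gam_le k he1p h1e hc
    have h5 : r * gam e ω c * T ≤ r * (2 * (1 - c1 - e1 * ω) / e1 ^ 2) * T := by gcongr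
    linarith
  linarith

lemma B_ge {e T ω H c : ℝ} (k : NK e T ω H c) {a b r e2 T1 T2 w2 c2 H0 B0 : ℝ} (ha : 0 ≤ a) (hab : a ≤ b)
    (hr : 0 ≤ r) (he2 : e2 ≤ 3) (h2e : e ≤ e2)
    (hT1 : 3 / 2 ≤ T1) (h1 : T1 ≤ T) (h2 : T ≤ T2) (hT2 : T2 ≤ 3) (hw : ω ≤ w2)
    (hc : c ≤ c2) (hH0 : H ≤ H0) (hwH : w2 * H0 ≤ 8)
    (hA1 : B0 ≤ a * (4 - w2 * H0 / 2) / T1 - b * (4 + w2 * H0 ^ 2 / 6) / T1 ^ 2 +
      (r * (2 * (1 - c2 - e2 * w2) / e2 ^ 2)) * T1)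
    (hA2 : B0 ≤ a * (4 - w2 * H0 / 2) / T2 - b * (4 + w2 * H0 ^ 2 / 6) / T2 ^ 2 +
      (r * (2 * (1 - c2 - e2 * w2) / e2 ^ 2)) * T2) :
    B0 ≤ a * (4 - ω * H / 2) / T - b * (4 + ω * H ^ 2 / 6) / T ^ 2 + r * gam e ω c * T := by
  have hω := k.ω0
  have hHH := k.H0
  have hT3 := k.T3
  have heT := k.eT
  have he0 := k.e0
  have hTp : 0 < T := by linarith
  have hH0' : 0 ≤ H0 := hHH.trans hH0
  have hbp : 0 ≤ b := ha.trans hab
  have hw2 : 0 ≤ w2 := by linarith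
  have s1 : B0 ≤ a * (4 - w2 * H0 / 2) / T - b * (4 + w2 * H0 ^ 2 / 6) / T ^ 2 +
      (r * (2 * (1 - c2 - e2 * w2) / e2 ^ 2)) * T := by
    apply conc (T1 := T1) (T2 := T2) _ _ (by linarith) h1 h2 hT2 hA1 hA2
    · have : 0 ≤ 4 - w2 * H0 / 2 := by linarith
      positivity
    · have : 0 ≤ w2 * H0 / 2 := by positivity
      have : 0 ≤ w2 * H0 ^ 2 / 6 := by positivity
      apply mul_le_mul hab (by linarith) (by linarith) hbp
  have s2 : a * (4 - w2 * H0 / 2) / T ≤ a * (4 - ω * H / 2) / T := by gcongr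
  have s3 : b * (4 + ω * H ^ 2 / 6) / T ^ 2 ≤ b * (4 + w2 * H0 ^ 2 / 6) / T ^ 2 := by gcongr
  have s4 : (r * (2 * (1 - c2 - e2 * w2) / e2 ^ 2)) * T ≤ r * gam e ω c * T := by
    have := gam_ge k h2e he2 hw hc
    gcongr
  linarith

/-- the conclusion from lower bounds -/
lemma leafS {e T ω H c : ℝ} (k : NK e T ω H c) {C A C0 A0 B0 L0 m0 R0 V0 T2 w2 c2 H0 : ℝ}
    (hC : IsC e T ω H C) (hC0 : C0 ≤ C) (hC2 : 41 / 20 ≤ C0) (hA : IsA T ω H (gam e ω c) A) (hA0 : A0 ≤ A)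
    (hB0 : B0 ≤ A + gam e ω c * T) (hL : wL e c ≤ L0) (h2 : T ≤ T2) (hw : ω ≤ w2) (hc : c ≤ c2)
    (hH0 : H ≤ H0) (hT32 : 3 / 2 ≤ T2)
    (t1 : 8 / 9 * T2 * L0 ≤ A0) (t2 : 8 / 9 * T2 * L0 ≤ B0)
    (hm0 : 0 ≤ m0) (hm : -gam e ω c ≤ m0) (hR0 : 0 < R0)
    (hR : R0 * (w2 + m0 * H0) ≤ B0 - w2 - 2 * m0 * H0)
    (hV : c2 * ((1 + 2 / R0) ^ 3 - 1) / 6 ≤ V0 ∨ w2 * H0 / 3 * (1 + R0) / R0 ^ 2 ≤ V0)
    (hfin : 1 / 6 / (C0 - 1) + (T2 * L0 ^ 3 / (6 * (A0 - L0) * (B0 - L0)) + V0) ≤ 1 / 6) :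
    SCond e T ω H c := by
  have hω := k.ω0
  have hHH := k.H0
  have hT3 := k.T3
  have heT := k.eT
  have he0 := k.e0
  have hTp : 0 < T := by linarith
  have hw0 : 0 < wL e c := lt_of_lt_of_le hω (wL_ge k)
  have hL0 : 0 < L0 := by linarith
  have q1 : L0 < 8 / 9 * T2 * L0 := by nlinarith
  have q2 : 8 / 9 * T * wL e c ≤ 8 / 9 * T2 * L0 := by gcongr
  set g := gam e ω c with hg
  have hm' : max 0 (-g) ≤ m0 := max_le hm0 hm
  have hm'0 : 0 ≤ max 0 (-g) := le_max_left _ _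
  have hRst : Rst T ω H g A = (A + g * T - ω - 2 * (max 0 (-g) * H)) / (ω + max 0 (-g) * H) := by
    unfold Rst theta
    have : 0 < ω + max 0 (-g) * H := by positivity
    field_simp
    ring
  have hH0' : 0 ≤ H0 := hHH.trans hH0
  have hw20 : 0 ≤ w2 := hω.le.trans hw
  have hmH : max 0 (-g) * H ≤ m0 * H0 := by gcongr
  have hRge : R0 ≤ Rst T ω H g A := by
    rw [hRst, le_div_iff₀ (by positivity)]
    calc R0 * (ω + max 0 (-g) * H) ≤ R0 * (w2 + m0 * H0) := by gcongr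
      _ ≤ _ := by linarith
  have hRpos : 0 < Rst T ω H g A := lt_of_lt_of_le hR0 hRge
  have u1 : T * wL e c ^ 3 / (6 * (A - wL e c) * (A + g * T - wL e c)) ≤
      T2 * L0 ^ 3 / (6 * (A0 - L0) * (B0 - L0)) := by
    have a1 : 0 < A0 - L0 := by linarith
    have a2 : 0 < B0 - L0 := by linarith
    have a3 : A0 - L0 ≤ A - wL e c := by linarith
    have a4 : B0 - L0 ≤ A + g * T - wL e c := by linarith
    have a5 : 6 * (A0 - L0) * (B0 - L0) ≤ 6 * (A - wL e c) * (A + g * T - wL e c) :=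
      mul_le_mul (by linarith) a4 a2.le (by linarith)
    have a6 : T * wL e c ^ 3 ≤ T2 * L0 ^ 3 := by gcongr
    exact div_le_div₀ (by positivity) a6 (by positivity) a5
  have u3 : 1 / 6 / (C - 1) ≤ 1 / 6 / (C0 - 1) := by
    have : 0 < C0 - 1 := by linarith
    gcongr
  have u2 : ∃ V, IsCap T ω H c g A V ∧ V ≤ V0 := by
    rcases hV with hV | hV
    · refine ⟨_, Or.inr (Or.inl ⟨hRpos, rfl⟩), le_trans ?_ hV⟩
      have hc0 := k.c0
      have a1 : (1 + 2 / Rst T ω H g A) ^ 3 ≤ (1 + 2 / R0) ^ 3 := by gcongr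
      have a2 : 1 ≤ (1 + 2 / Rst T ω H g A) ^ 3 := by
        have : 0 ≤ 2 / Rst T ω H g A := by positivity
        exact one_le_pow₀ (by linarith)
      have a3 : c * ((1 + 2 / Rst T ω H g A) ^ 3 - 1) ≤ c2 * ((1 + 2 / R0) ^ 3 - 1) := by
        apply mul_le_mul hc (by linarith) (by linarith) (by linarith)
      linarith
    · refine ⟨_, Or.inr (Or.inr ⟨hRpos, rfl⟩), le_trans ?_ hV⟩
      have e1 : ∀ R : ℝ, 0 < R → ∀ x : ℝ, x * (1 + R) / R ^ 2 = x * (1 / R ^ 2 + 1 / R) := by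
        intro R hR x; field_simp
      rw [e1 _ hRpos, e1 _ hR0]
      have a1 : 1 / Rst T ω H g A ^ 2 ≤ 1 / R0 ^ 2 := by gcongr
      have a2 : 1 / Rst T ω H g A ≤ 1 / R0 := by gcongr
      have a3 : ω * H / 3 ≤ w2 * H0 / 3 := by gcongr
      apply mul_le_mul a3 (by linarith) (by positivity) (by positivity)
  obtain ⟨V, hVc, hV0⟩ := u2
  refine ⟨C, A, T * wL e c ^ 3 / (6 * (A - wL e c) * (A + g * T - wL e c)),
    V, hC, by norm_num at hC2 ⊢; linarith, hA, by linarith, by linarith, by linarith,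
    by linarith, Or.inl rfl, hVc, ?_⟩
  linarith

end Pool.Agent.helper93.NU
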