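import Mathlib
import Pool.Agent.helper15.PB.NumDefs
import Pool.Agent.helper93.NU.Leaf

/-!
# MP_0069fb_gt, final numerical inequality: the corner `(e,T,ω) = (3/2,3,0)`
-/

set_option autoImplicit false

namespace Pool.Agent.helper93.NU

open Pool.Agent.helper15.PB

lemma corner_p {p C0 : ℝ} (hp0 : 0 ≤ p) (hp : p ≤ 1 / 100) (hC : 2 + 7 * p ≤ C0) :
    (1 + p) ^ 2 ≤ (1 - 3.3 * p) * (C0 - 1 - p) := by
  have h1 : (1 - 3.3 * p) * (1 + 6 * p) ≤ (1 - 3.3 * p) * (C0 - 1 - p) := by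
    apply mul_le_mul_of_nonneg_left <;> linarith
  have h2 : (1 + p) ^ 2 ≤ (1 - 3.3 * p) * (1 + 6 * p) := by nlinarith
  exact h2.trans h1

lemma corner_key {e T : ℝ} (he : e ≠ 0) (hT : T ≠ 0) :
    4 * e / T - 4 * e / T ^ 2 + T / (3 * e) = 2 - 2 * (3 - T) ^ 3 / (9 * T ^ 2) +
      (e - 3 / 2) * (4 * (T - 1) / T ^ 2 - 2 * T / (9 * e)) := by
  field_simp
  ring

lemma corner {e T ω H c : ℝ} (k : NK e T ω H c) (hω1 : ω ≤ 1 / 32) (he : e ≤ 8 / 5) (hT : 14 / 5 ≤ T) :
    ECond e T ω H := by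
  have hω := k.ω0
  have hHH := k.H0
  have hT3 := k.T3
  have heT := k.eT
  have he0 := k.e0
  have hep : 0 < e := by linarith
  have hTp : 0 < T := by linarith
  set H0 := 2 / 5 * ω * (3 - T) with hH0
  have hHb : H ≤ H0 := by
    apply H_le k (T1 := T) (T2 := 3) (w2 := ω) (by linarith) le_rfl hT3 le_rfl le_rfl (by linarith)
    have : 0 ≤ ω * (3 - T) := mul_nonneg hω.le (by linarith)
    have h2 : T ≤ 2 / 5 * (8 - ω * (3 + 11 / 3)) := by linarith
    calc ω * (T * (3 - T)) = (ω * (3 - T)) * T := by ring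
      _ ≤ (ω * (3 - T)) * (2 / 5 * (8 - ω * (3 + 11 / 3))) := mul_le_mul_of_nonneg_left h2 this
      _ = H0 * (8 - ω * (3 + 11 / 3)) := by rw [hH0]; ring
  have hH0b : H0 ≤ 2 / 25 * ω := by
    rw [hH0]
    have : ω * (3 - T) ≤ ω * (1 / 5) := mul_le_mul_of_nonneg_left (by linarith) hω.le
    linarith
  have hH0p : 0 ≤ H0 := hHH.trans hHb
  set p := 7 / 10 * ω ^ 2 with hp
  have hω2 : ω ^ 2 ≤ 1 / 1024 := by nlinarith
  have hω20 : 0 ≤ ω ^ 2 := sq_nonneg _
  have hωH : ω * H0 ≤ 2 / 25 * ω ^ 2 := by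
    have := mul_le_mul_of_nonneg_left hH0b hω.le
    linarith
  have hωH0 : 0 ≤ ω * H0 := by positivity
  have hd : 0.94 ≤ 1 - ω * H0 / 2 - 8 / 5 * ω := by
    norm_num; linarith
  have hpp : ω ^ 2 * (8 / 5) ^ 2 ≤ 4 * p * (1 - ω * H0 / 2 - 8 / 5 * ω) := by
    rw [hp]
    have : ω ^ 2 * 0.94 ≤ ω ^ 2 * (1 - ω * H0 / 2 - 8 / 5 * ω) := mul_le_mul_of_nonneg_left hd hω20
    norm_num at this ⊢
    linarith
  have hp0 : 0 ≤ p := by positivity
  have hp1 : p ≤ 1 / 1000 := by rw [hp]; linarith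
  rcases le_or_gt (7 * ω) ((3 - T) + 2 * (e - 3 / 2)) with h | h
  · -- `CB`
    have hCB : 2 + 7 * p ≤ CB e T ω H := by
      have e0 : CB e T ω H = 2 + (2 * e - T) ^ 2 / (2 * e * T) - ω * H / 2 * e / (2 * T) := by
        unfold CB; field_simp; ring
      rw [e0]
      have h1 : 49 * ω ^ 2 ≤ (2 * e - T) ^ 2 := by nlinarith
      have h2 : 49 * ω ^ 2 / (9.6 : ℝ) ≤ (2 * e - T) ^ 2 / (2 * e * T) := by
        apply div_le_div₀ (by positivity) h1 (by positivity)
        nlinarith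
      have h3 : ω * H / 2 * e / (2 * T) ≤ ω ^ 2 / 25 := by
        rw [div_le_iff₀ (by positivity)]
        have h4 : ω * H ≤ 2 / 25 * ω ^ 2 := by
          have := mul_le_mul_of_nonneg_left hHb hω.le
          linarith
        have h5 : ω * H / 2 * e ≤ (1 / 25 * ω ^ 2) * e := mul_le_mul_of_nonneg_right (by linarith) hep.le
        have h6 : ω ^ 2 * e ≤ ω ^ 2 * (2 * T) := mul_le_mul_of_nonneg_left (by linarith) hω20
        linarith
      have h7 : 49 * ω ^ 2 / (9.6 : ℝ) = 49 / 9.6 * ω ^ 2 := by ring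
      rw [h7] at h2
      norm_num at h2
      rw [hp]
      linarith
    exact leafE k (C0 := CB e T ω H) he le_rfl hHb (Or.inr (Or.inr rfl)) le_rfl (by linarith) hpp
      (by norm_num; linarith) (corner_p hp0 (by linarith) hCB)
  · -- `C3(T)`
    have hC3 : 2 + 7 * p ≤ C3 e T ω H T := by
      have e0 : C3 e T ω H T = 2 - 2 * (3 - T) ^ 3 / (9 * T ^ 2) + (e - 3 / 2) * (4 * (T - 1) / T ^ 2 - 2 * T / (9 * e))
          + ω * T / 6 - e * (ω * H / 2) / T - e * (ω * H ^ 2 / 6) / T ^ 2 := by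
        rw [C3_eq _ _ _ _ hTp.ne']
        linear_combination corner_key hep.ne' hTp.ne'
      rw [e0]
      have hu0 : 0 ≤ 3 - T := by linarith
      have hu : 3 - T ≤ 7 * ω := by linarith
      have hv : 0 ≤ e - 3 / 2 := by linarith
      have h1 : 2 * (3 - T) ^ 3 / (9 * T ^ 2) ≤ ω / 50 := by
        rw [div_le_iff₀ (by positivity)]
        have a1 : (3 - T) ^ 3 ≤ (7 * ω) ^ 3 := by gcongr
        have a2 : (7 * ω) ^ 3 ≤ 343 / 1024 * ω := by
          have : (7 * ω) ^ 3 = 343 * ω ^ 2 * ω := by ring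
          rw [this]
          apply mul_le_mul_of_nonneg_right _ hω.le
          linarith
        have a3 : 7 ≤ T ^ 2 := by nlinarith
        have a4 : ω * 7 ≤ ω * T ^ 2 := mul_le_mul_of_nonneg_left a3 hω.le
        linarith
      have h2 : 0 ≤ (e - 3 / 2) * (4 * (T - 1) / T ^ 2 - 2 * T / (9 * e)) := by
        apply mul_nonneg hv
        have a1 : 8 / 9 ≤ 4 * (T - 1) / T ^ 2 := by
          rw [le_div_iff₀ (by positivity)]
          nlinarith
        have a2 : 2 * T / (9 * e) ≤ 4 / 9 := by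
          rw [div_le_iff₀ (by positivity)]
          linarith
        linarith
      have h3 : e * (ω * H / 2) / T ≤ ω / 100 := by
        rw [div_le_iff₀ hTp]
        have a0 : H ≤ 1 / 100 := by linarith
        have a1 : ω * H ≤ ω * (1 / 100) := mul_le_mul_of_nonneg_left a0 hω.le
        have a2 : e * (ω * H / 2) ≤ T * (ω * (1 / 100)) := by
          apply mul_le_mul heT _ (by positivity) hTp.le
          linarith
        linarith
      have h4 : e * (ω * H ^ 2 / 6) / T ^ 2 ≤ ω / 100 := by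
        rw [div_le_iff₀ (by positivity)]
        have a0 : H ^ 2 ≤ 1 / 100 := by nlinarith
        have a1 : ω * H ^ 2 ≤ ω * (1 / 100) := mul_le_mul_of_nonneg_left a0 hω.le
        have a3 : e ≤ T ^ 2 := by nlinarith
        have a2 : e * (ω * H ^ 2 / 6) ≤ T ^ 2 * (ω * (1 / 100)) := by
          apply mul_le_mul a3 _ (by positivity) (by positivity)
          linarith
        linarith
      have h5 : ω * (14 / 5) ≤ ω * T := mul_le_mul_of_nonneg_left hT hω.le
      have h6 : 7 * p ≤ 1 / 6 * ω := by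
        rw [hp]
        have : ω * ω ≤ ω * (1 / 32) := mul_le_mul_of_nonneg_left hω1 hω.le
        nlinarith
      linarith
    exact leafE k (C0 := C3 e T ω H T) he le_rfl hHb (Or.inl rfl) le_rfl (by linarith) hpp
      (by norm_num; linarith) (corner_p hp0 (by linarith) hC3)

end Pool.Agent.helper93.NU
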