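import Mathlib
import Pool.Agent.helper15.PB.NumDefs
import Pool.Agent.helper93.NU.Corner

/-!
# MP_0069fb_gt, final numerical inequality: checker and soundness
-/

set_option autoImplicit false

namespace Pool.Agent.helper93.NU

open Pool.Agent.helper15.PB

/-- certificate trees; box coordinates have denominator `18 * 2^20`, the other numbers `3 * 2^19` -/
inductive Tr
  | em (kd H0 W Z : ℕ)
  | co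
  | E (i H0 W C0 p : ℕ)
  | S (i j H0 W Z C0 A0 B0 L0 m0 R0 V0 : ℕ)
  | sp (v : ℕ) (l r : Tr)

/-- basic checks -/
def kPre (e1 e2 T1 T2 w2 c1 H0 W : ℚ) : Bool :=
  decide (3 / 2 ≤ e1) && decide (3 / 2 ≤ T1) && decide (T2 ≤ 3) && decide (e2 ≤ 3) && decide (W ≤ 2 / 3) &&
  (decide (w2 ≤ W) || decide (4 * e2 * (1 - c1) - 6 ≤ W * e2 ^ 2)) &&
  decide (W * (T1 * (3 - T1)) ≤ H0 * (8 - W * (T2 + 11 / 3)))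

/-- check of the bound `Z` for `c` -/
def kZ (e2 w1 c2 H0 W Z : ℚ) : Bool :=
  decide (c2 ≤ Z) || decide (W * H0 / 2 ≤ Z) || decide (4 * e2 - 6 - w1 * e2 ^ 2 ≤ 4 * Z * e2)

/-- value at `T` of the lower bound for `C3(T)` -/
def vC (e1 w1 H0 T : ℚ) : ℚ :=
  (e1 * (4 - w1 * H0 / 2)) / T - (e1 * (4 + w1 * H0 ^ 2 / 6)) / T ^ 2 + (1 / (3 * e1) + w1 / 6) * T

/-- check of the bound for `C` -/
def kC : ℕ → ℚ → ℚ → ℚ → ℚ → ℚ → ℚ → ℚ → ℚ → Bool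
  | 0, e1, _, T1, T2, w1, _, H0, C0 => decide (C0 ≤ vC e1 w1 H0 T1) && decide (C0 ≤ vC e1 w1 H0 T2) &&
      decide (w1 * H0 ≤ 8)
  | 1, e1, _, T1, _, w1, _, H0, C0 => decide (2 ≤ T1) &&
      decide (C0 ≤ e1 / 4 * (4 - w1 * H0 - w1 * H0 ^ 2 / 6) + 2 / (3 * e1) + w1 * (T1 - 4 / 3) / 2)
  | 2, e1, _, _, T2, _, W, H0, C0 => decide (T2 ^ 2 ≤ (4 - W * H0 / 2) * e1 ^ 2) &&
      decide (2 * C0 ≤ T2 / e1 + (4 - W * H0 / 2) * (e1 / T2))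
  | _, _, e2, T1, _, _, W, H0, C0 => decide ((4 - W * H0 / 2) * e2 ^ 2 ≤ T1 ^ 2) &&
      decide (2 * C0 ≤ T1 / e2 + (4 - W * H0 / 2) * (e2 / T1))

/-- value at `T` of the lower bound for `A` -/
def vA (a b w1 H0 g T : ℚ) : ℚ :=
  a * (4 - w1 * H0 / 2) / T - b * (4 + w1 * H0 ^ 2 / 6) / T ^ 2 + g * T

/-- check of the bounds `A0`, `B0` -/
def kA (a b r e1 e2 T1 T2 w1 c1 H0 W Z A0 B0 : ℚ) : Bool :=
  decide (A0 ≤ vA a b w1 H0 (-(r * (2 * (1 - c1 - e1 * w1) / e1 ^ 2))) T1) &&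
  decide (A0 ≤ vA a b w1 H0 (-(r * (2 * (1 - c1 - e1 * w1) / e1 ^ 2))) T2) &&
  decide (w1 * H0 ≤ 8) &&
  decide (B0 ≤ vA a b W H0 ((1 - r) * (2 * (1 - Z - e2 * W) / e2 ^ 2)) T1) &&
  decide (B0 ≤ vA a b W H0 ((1 - r) * (2 * (1 - Z - e2 * W) / e2 ^ 2)) T2) &&
  decide (W * H0 ≤ 8)

/-- check of the bounds `A0`, `B0` for the `j`-th candidate -/
def kAj : ℕ → ℚ → ℚ → ℚ → ℚ → ℚ → ℚ → ℚ → ℚ → ℚ → ℚ → ℚ → Bool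
  | 0 => kA 2 2 (2 / 3)
  | 1 => kA (16 / 5) (24 / 5) (4 / 5)
  | _ => kA (16 / 3) (32 / 3) (8 / 9)

/-- final check of an `S` leaf -/
def kFin (e2 T2 c1 H0 W Z C0 A0 B0 L0 m0 R0 V0 : ℚ) : Bool :=
  decide (41 / 20 ≤ C0) && decide (4 * e2 * (1 - c1) - 6 ≤ L0 * e2 ^ 2) &&
  decide (8 / 9 * T2 * L0 ≤ A0) && decide (8 / 9 * T2 * L0 ≤ B0) &&
  decide (0 ≤ m0) && decide (-(2 * (1 - Z - e2 * W) / e2 ^ 2) ≤ m0) && decide (0 < R0) &&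
  decide (R0 * (W + m0 * H0) ≤ B0 - W - 2 * m0 * H0) &&
  (decide (Z * ((1 + 2 / R0) ^ 3 - 1) / 6 ≤ V0) || decide (W * H0 / 3 * (1 + R0) / R0 ^ 2 ≤ V0)) &&
  decide (1 / 6 / (C0 - 1) + (T2 * L0 ^ 3 / (6 * (A0 - L0) * (B0 - L0)) + V0) ≤ 1 / 6)

/-- check of an `S` leaf -/
def kS (i j : ℕ) (e1 e2 T1 T2 w1 w2 c1 c2 H0 W Z C0 A0 B0 L0 m0 R0 V0 : ℚ) : Bool :=
  kPre e1 e2 T1 T2 w2 c1 H0 W && kZ e2 w1 c2 H0 W Z && kC i e1 e2 T1 T2 w1 W H0 C0 &&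
  kAj j e1 e2 T1 T2 w1 c1 H0 W Z A0 B0 && kFin e2 T2 c1 H0 W Z C0 A0 B0 L0 m0 R0 V0

/-- check of an `E` leaf -/
def kE (i : ℕ) (e1 e2 T1 T2 w1 w2 c1 H0 W C0 p : ℚ) : Bool :=
  kPre e1 e2 T1 T2 w2 c1 H0 W && kC i e1 e2 T1 T2 w1 W H0 C0 &&
  decide (0 < 1 - W * H0 / 2 - e2 * W) && decide (W ^ 2 * e2 ^ 2 ≤ 4 * p * (1 - W * H0 / 2 - e2 * W)) &&
  decide (p ≤ 2 / 25) && decide ((1 + p) ^ 2 ≤ (1 - 33 / 10 * p) * (C0 - 1 - p))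

/-- check of an empty leaf -/
def kEm : ℕ → ℚ → ℚ → ℚ → ℚ → ℚ → ℚ → ℚ → ℚ → ℚ → ℚ → ℚ → Bool
  | 0, _, _, _, _, _, _, _, _, _, _, _ => false
  | 1, _, e2, _, _, w1, _, c1, _, _, _, _ => decide (4 * e2 * (1 - c1) - 6 < w1 * e2 ^ 2) && decide (e2 ≤ 3)
  | _, e1, e2, T1, T2, w1, w2, c1, c2, H0, W, Z => kPre e1 e2 T1 T2 w2 c1 H0 W && kZ e2 w1 c2 H0 W Z &&
      decide (Z < c1)

/-- box coordinate -/
def qb (n : ℕ) : ℚ := (n : ℚ) / 18874368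

/-- witness -/
def qw (n : ℕ) : ℚ := (n : ℚ) / 1572864

/-- the checker -/
def chk : Tr → ℕ → ℕ → ℕ → ℕ → ℕ → ℕ → ℕ → ℕ → Bool
  | .em kd H0 W Z, e1, e2, T1, T2, w1, w2, c1, c2 => Nat.blt T2 e1 ||
      kEm kd (qb e1) (qb (min e2 T2)) (qb (max T1 e1)) (qb T2) (qb w1) (qb w2) (qb c1) (qb c2)
        (qw H0) (qw W) (qw Z)
  | .co, _, e2, T1, _, _, w2, _, _ => Nat.ble (32 * w2) 18874368 && Nat.ble (5 * e2) 150994944 &&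
      Nat.ble 264241152 (5 * T1)
  | .E i H0 W C0 p, e1, e2, T1, T2, w1, w2, c1, _ =>
      kE i (qb e1) (qb (min e2 T2)) (qb (max T1 e1)) (qb T2) (qb w1) (qb w2) (qb c1)
        (qw H0) (qw W) (qw C0) (qw p)
  | .S i j H0 W Z C0 A0 B0 L0 m0 R0 V0, e1, e2, T1, T2, w1, w2, c1, c2 =>
      kS i j (qb e1) (qb (min e2 T2)) (qb (max T1 e1)) (qb T2) (qb w1) (qb w2) (qb c1) (qb c2)
        (qw H0) (qw W) (qw Z) (qw C0) (qw A0) (qw B0) (qw L0) (qw m0) (qw R0) (qw V0)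
  | .sp 0 l r, e1, e2, T1, T2, w1, w2, c1, c2 =>
      chk l e1 ((e1 + e2) / 2) T1 T2 w1 w2 c1 c2 && chk r ((e1 + e2) / 2) e2 T1 T2 w1 w2 c1 c2
  | .sp 1 l r, e1, e2, T1, T2, w1, w2, c1, c2 =>
      chk l e1 e2 T1 ((T1 + T2) / 2) w1 w2 c1 c2 && chk r e1 e2 ((T1 + T2) / 2) T2 w1 w2 c1 c2
  | .sp 2 l r, e1, e2, T1, T2, w1, w2, c1, c2 =>
      chk l e1 e2 T1 T2 w1 ((w1 + w2) / 2) c1 c2 && chk r e1 e2 T1 T2 ((w1 + w2) / 2) w2 c1 c2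
  | .sp _ l r, e1, e2, T1, T2, w1, w2, c1, c2 =>
      chk l e1 e2 T1 T2 w1 w2 c1 ((c1 + c2) / 2) && chk r e1 e2 T1 T2 w1 w2 ((c1 + c2) / 2) c2

end Pool.Agent.helper93.NU
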