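import Mathlib
import Pool.Agent.helper15.PB.NumDefs
import Pool.Agent.helper93.NU.Chk

/-!
# MP_0069fb_gt, final numerical inequality: soundness of the checker
-/

set_option autoImplicit false

namespace Pool.Agent.helper93.NU

open Pool.Agent.helper15.PB

lemma rc {a b : ℚ} (h : a ≤ b) : (a : ℝ) ≤ b := Rat.cast_le.mpr h

lemma rcl {a b : ℚ} (h : a < b) : (a : ℝ) < b := Rat.cast_lt.mpr h

lemma qb_cast (n : ℕ) : ((qb n : ℚ) : ℝ) = (n : ℝ) / 18874368 := by unfold qb; push_cast; rfl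

lemma min_q {x : ℝ} {a b : ℕ} (h1 : x ≤ (a : ℝ) / 18874368) (h2 : x ≤ (b : ℝ) / 18874368) :
    x ≤ ((qb (min a b) : ℚ) : ℝ) := by
  rw [qb_cast]
  rcases min_choice a b with h | h <;> rw [h] <;> assumption

lemma max_q {x : ℝ} {a b : ℕ} (h1 : (a : ℝ) / 18874368 ≤ x) (h2 : (b : ℝ) / 18874368 ≤ x) :
    ((qb (max a b) : ℚ) : ℝ) ≤ x := by
  rw [qb_cast]
  rcases max_choice a b with h | h <;> rw [h] <;> assumption

lemma pre_sound {e T ω H c : ℝ} (k : NK e T ω H c) {e1 e2 T1 T2 w2 c1 H0 W : ℚ}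
    (h : kPre e1 e2 T1 T2 w2 c1 H0 W = true) (hT1 : (T1 : ℝ) ≤ T) (hT2 : T ≤ T2)
    (he2 : e ≤ e2) (hw2 : ω ≤ w2) (hc1 : (c1 : ℝ) ≤ c) (hc10 : (0 : ℝ) ≤ c1) :
    (3 / 2 : ℝ) ≤ e1 ∧ (3 / 2 : ℝ) ≤ T1 ∧ (T2 : ℝ) ≤ 3 ∧ (e2 : ℝ) ≤ 3 ∧ (W : ℝ) ≤ 2 / 3 ∧
      ω ≤ W ∧ H ≤ H0 := by
  unfold kPre at h
  simp only [Bool.and_eq_true, Bool.or_eq_true, decide_eq_true_eq] at h
  obtain ⟨⟨⟨⟨⟨⟨a1, a2⟩, a3⟩, a4⟩, a5⟩, a6⟩, a7⟩ := h
  have b1 : (3 / 2 : ℝ) ≤ e1 := by have := rc a1; push_cast at this; exact this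
  have b2 : (3 / 2 : ℝ) ≤ T1 := by have := rc a2; push_cast at this; exact this
  have b3 : (T2 : ℝ) ≤ 3 := by have := rc a3; push_cast at this; exact this
  have b4 : (e2 : ℝ) ≤ 3 := by have := rc a4; push_cast at this; exact this
  have b5 : (W : ℝ) ≤ 2 / 3 := by have := rc a5; push_cast at this; exact this
  have b7 : (W : ℝ) * (T1 * (3 - T1)) ≤ H0 * (8 - W * (T2 + 11 / 3)) := by have := rc a7; push_cast at this; exact this
  have b6 : ω ≤ W := by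
    rcases a6 with a6 | a6
    · have : (w2 : ℝ) ≤ W := by have := rc a6; push_cast at this; exact this
      linarith
    · have h6 : 4 * (e2 : ℝ) * (1 - c1) - 6 ≤ W * e2 ^ 2 := by have := rc a6; push_cast at this; exact this
      exact (wL_ge k).trans (wL_le k he2 b4 hc10 hc1 h6)
  exact ⟨b1, b2, b3, b4, b5, b6, H_le k b2 hT1 hT2 b3 b6 b5 b7⟩

lemma Z_sound {e T ω H c : ℝ} (k : NK e T ω H c) {e2 w1 c2 H0 W Z : ℚ}
    (h : kZ e2 w1 c2 H0 W Z = true) (he2 : e ≤ e2) (hw1 : (w1 : ℝ) ≤ ω) (hc2 : c ≤ c2)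
    (hW : ω ≤ W) (hH0 : H ≤ H0) (he23 : (e2 : ℝ) ≤ 3) : c ≤ Z := by
  unfold kZ at h
  simp only [Bool.or_eq_true, decide_eq_true_eq] at h
  have hω := k.ω0
  have hH := k.H0
  have he0 := k.e0
  have hep : 0 < e := by linarith
  have hc := k.c0
  rcases h with (h | h) | h
  · have : (c2 : ℝ) ≤ Z := by have := rc h; push_cast at this; exact this
    linarith
  · have h1 : (W : ℝ) * H0 / 2 ≤ Z := by have := rc h; push_cast at this; exact this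
    have hW0 : (0 : ℝ) ≤ W := hω.le.trans hW
    have h2 : ω * H ≤ W * H0 := by gcongr
    have := k.cH
    linarith
  · have h1 : 4 * (e2 : ℝ) - 6 - w1 * e2 ^ 2 ≤ 4 * Z * e2 := by have := rc h; push_cast at this; exact this
    have h2 := k.ωe
    have he2p : (0 : ℝ) < e2 := by linarith
    have h3 : (w1 : ℝ) * e ^ 2 ≤ ω * e ^ 2 := by gcongr
    have h4 : 4 * e * c ≤ 4 * e - 6 - w1 * e ^ 2 := by linarith
    -- multiply by e2, compare
    have h5 : (4 * e - 6 - w1 * e ^ 2) * e2 ≤ (4 * e2 - 6 - w1 * e2 ^ 2) * e := by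
      have h6 : (w1 : ℝ) * (e * e2) ≤ 6 := by
        have h7 : (w1 : ℝ) ≤ 2 / 3 := hw1.trans (w_le k)
        have h8 : 0 < e * (e2 : ℝ) := by positivity
        have h9 : e * (e2 : ℝ) ≤ 9 := by nlinarith
        nlinarith
      have h10 : 0 ≤ ((e2 : ℝ) - e) * (6 - w1 * (e * e2)) := mul_nonneg (by linarith) (by linarith)
      nlinarith
    have h11 : (4 * e * c) * e2 ≤ (4 * Z * e2) * e :=
      (mul_le_mul_of_nonneg_right h4 he2p.le).trans (h5.trans (mul_le_mul_of_nonneg_right h1 hep.le))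
    have h12 : c * (4 * e * e2) ≤ Z * (4 * e * e2) := by linarith
    exact le_of_mul_le_mul_right h12 (by positivity)

lemma C_sound {e T ω H c : ℝ} (k : NK e T ω H c) {i : ℕ} {e1 e2 T1 T2 w1 H0 W C0 : ℚ}
    (h : kC i e1 e2 T1 T2 w1 W H0 C0 = true) (he1 : (e1 : ℝ) ≤ e) (he2 : e ≤ e2)
    (hT1 : (T1 : ℝ) ≤ T) (hT2 : T ≤ T2) (hw1 : (w1 : ℝ) ≤ ω) (hw10 : (0 : ℝ) ≤ w1) (hW : ω ≤ W) (hH0 : H ≤ H0)
    (b1 : (3 / 2 : ℝ) ≤ e1) (b2 : (3 / 2 : ℝ) ≤ T1) (b3 : (T2 : ℝ) ≤ 3) :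
    ∃ C, IsC e T ω H C ∧ (C0 : ℝ) ≤ C := by
  have hω := k.ω0
  have hH := k.H0
  have hW0 : (0 : ℝ) ≤ W := hω.le.trans hW
  have hq : (4 : ℝ) - W * H0 / 2 ≤ 4 - ω * H / 2 := by
    have : ω * H ≤ W * H0 := by gcongr
    linarith
  match i, h with
  | 0, h =>
    unfold kC vC at h
    simp only [Bool.and_eq_true, decide_eq_true_eq] at h
    obtain ⟨⟨h1, h2⟩, h3⟩ := h
    refine ⟨_, Or.inl rfl, ?_⟩
    exact C3T_ge k b1 he1 b2 hT1 hT2 b3 hw10 hw1 hH0 (by have := rc h1; push_cast at this; exact this) (by have := rc h2; push_cast at this; exact this)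
      (by have := rc h3; push_cast at this; exact this)
  | 1, h =>
    unfold kC at h
    simp only [Bool.and_eq_true, decide_eq_true_eq] at h
    obtain ⟨h1, h2⟩ := h
    have h1' : (2 : ℝ) ≤ T1 := by have := rc h1; push_cast at this; exact this
    refine ⟨_, Or.inr (Or.inl ⟨h1'.trans hT1, rfl⟩), ?_⟩
    exact C32_ge k b1 he1 h1' hT1 hw10 hw1 hH0 (by have := rc h2; push_cast at this; exact this)
  | 2, h =>
    unfold kC at h
    simp only [Bool.and_eq_true, decide_eq_true_eq] at h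
    obtain ⟨h1, h2⟩ := h
    refine ⟨_, Or.inr (Or.inr rfl), ?_⟩
    exact CB_ge1 k (q := 4 - W * H0 / 2) (by linarith) he1 hT2 hq (by have := rc h1; push_cast at this; exact this) (by have := rc h2; push_cast at this; exact this)
  | (n + 3), h =>
    unfold kC at h
    simp only [Bool.and_eq_true, decide_eq_true_eq] at h
    obtain ⟨h1, h2⟩ := h
    refine ⟨_, Or.inr (Or.inr rfl), ?_⟩
    exact CB_ge2 k (q := 4 - W * H0 / 2) he2 (by linarith) hT1 hq (by have := rc h1; push_cast at this; exact this) (by have := rc h2; push_cast at this; exact this)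

lemma A_sound {e T ω H c : ℝ} (k : NK e T ω H c) {a b r e1 e2 T1 T2 w1 c1 H0 W Z A0 B0 : ℚ}
    (h : kA a b r e1 e2 T1 T2 w1 c1 H0 W Z A0 B0 = true) (he1 : (e1 : ℝ) ≤ e) (he2 : e ≤ e2)
    (hT1 : (T1 : ℝ) ≤ T) (hT2 : T ≤ T2) (hw1 : (w1 : ℝ) ≤ ω) (hw10 : (0 : ℝ) ≤ w1) (hW : ω ≤ W) (hH0 : H ≤ H0)
    (hc1 : (c1 : ℝ) ≤ c) (hZ : c ≤ Z) (he23 : (e2 : ℝ) ≤ 3)
    (b1 : (3 / 2 : ℝ) ≤ e1) (b2 : (3 / 2 : ℝ) ≤ T1) (b3 : (T2 : ℝ) ≤ 3)
    (ha : (0 : ℝ) ≤ a) (hab : (a : ℝ) ≤ b) (hb : (b : ℝ) ≤ 16 * r) (hr : (2 / 3 : ℝ) ≤ r) (har : (a : ℝ) ≤ 8 * r)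
    (hr1 : (r : ℝ) ≤ 1) :
    (A0 : ℝ) ≤ a * (4 - ω * H / 2) / T - b * (4 + ω * H ^ 2 / 6) / T ^ 2 - r * gam e ω c * T ∧
    (B0 : ℝ) ≤ a * (4 - ω * H / 2) / T - b * (4 + ω * H ^ 2 / 6) / T ^ 2 + (1 - r) * gam e ω c * T := by
  unfold kA vA at h
  simp only [Bool.and_eq_true, decide_eq_true_eq] at h
  obtain ⟨⟨⟨⟨⟨h1, h2⟩, h3⟩, h4⟩, h5⟩, h6⟩ := h
  constructor
  · exact A_ge k ha hab hb hr har b1 he1 b2 hT1 hT2 b3 hw10 hw1 hc1 hH0 (by have := rc h3; push_cast at this; exact this)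
      (by have := rc h1; push_cast at this; exact this) (by have := rc h2; push_cast at this; exact this)
  · exact B_ge k (r := 1 - r) ha hab (by linarith) he23 he2 b2 hT1 hT2 b3 hW hZ hH0 (by have := rc h6; push_cast at this; exact this)
      (by have := rc h4; push_cast at this; exact this) (by have := rc h5; push_cast at this; exact this)

lemma Aj_sound {e T ω H c : ℝ} (k : NK e T ω H c) {j : ℕ} {e1 e2 T1 T2 w1 c1 H0 W Z A0 B0 : ℚ}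
    (h : kAj j e1 e2 T1 T2 w1 c1 H0 W Z A0 B0 = true) (he1 : (e1 : ℝ) ≤ e) (he2 : e ≤ e2)
    (hT1 : (T1 : ℝ) ≤ T) (hT2 : T ≤ T2) (hw1 : (w1 : ℝ) ≤ ω) (hw10 : (0 : ℝ) ≤ w1) (hW : ω ≤ W) (hH0 : H ≤ H0)
    (hc1 : (c1 : ℝ) ≤ c) (hZ : c ≤ Z) (he23 : (e2 : ℝ) ≤ 3)
    (b1 : (3 / 2 : ℝ) ≤ e1) (b2 : (3 / 2 : ℝ) ≤ T1) (b3 : (T2 : ℝ) ≤ 3) :
    ∃ A, IsA T ω H (gam e ω c) A ∧ (A0 : ℝ) ≤ A ∧ (B0 : ℝ) ≤ A + gam e ω c * T := by
  have hT : T ≠ 0 := by linarith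
  match j, h with
  | 0, h =>
    unfold kAj at h
    obtain ⟨h1, h2⟩ := A_sound k h he1 he2 hT1 hT2 hw1 hw10 hW hH0 hc1 hZ he23 b1 b2 b3
      (by norm_num) (by norm_num) (by norm_num) (by norm_num) (by norm_num) (by norm_num)
    push_cast at h1 h2
    refine ⟨_, Or.inl rfl, ?_, ?_⟩
    · refine h1.trans (le_of_eq ?_)
      field_simp; ring
    · refine h2.trans (le_of_eq ?_)
      field_simp; ring
  | 1, h =>
    unfold kAj at h
    obtain ⟨h1, h2⟩ := A_sound k h he1 he2 hT1 hT2 hw1 hw10 hW hH0 hc1 hZ he23 b1 b2 b3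
      (by norm_num) (by norm_num) (by norm_num) (by norm_num) (by norm_num) (by norm_num)
    push_cast at h1 h2
    refine ⟨_, Or.inr (Or.inl rfl), ?_, ?_⟩
    · refine h1.trans (le_of_eq ?_)
      field_simp; ring
    · refine h2.trans (le_of_eq ?_)
      field_simp; ring
  | (n + 2), h =>
    unfold kAj at h
    obtain ⟨h1, h2⟩ := A_sound k h he1 he2 hT1 hT2 hw1 hw10 hW hH0 hc1 hZ he23 b1 b2 b3
      (by norm_num) (by norm_num) (by norm_num) (by norm_num) (by norm_num) (by norm_num)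
    push_cast at h1 h2
    refine ⟨_, Or.inr (Or.inr (Or.inl rfl)), ?_, ?_⟩
    · refine h1.trans (le_of_eq ?_)
      field_simp; ring
    · refine h2.trans (le_of_eq ?_)
      field_simp; ring

lemma S_sound {e T ω H c : ℝ} (k : NK e T ω H c) {i j : ℕ}
    {e1 e2 T1 T2 w1 w2 c1 c2 H0 W Z C0 A0 B0 L0 m0 R0 V0 : ℚ}
    (h : kS i j e1 e2 T1 T2 w1 w2 c1 c2 H0 W Z C0 A0 B0 L0 m0 R0 V0 = true)
    (he1 : (e1 : ℝ) ≤ e) (he2 : e ≤ e2) (hT1 : (T1 : ℝ) ≤ T) (hT2 : T ≤ T2) (hw1 : (w1 : ℝ) ≤ ω)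
    (hw2 : ω ≤ w2) (hc1 : (c1 : ℝ) ≤ c) (hc2 : c ≤ c2) (hw10 : (0 : ℝ) ≤ w1) (hc10 : (0 : ℝ) ≤ c1) :
    SCond e T ω H c := by
  unfold kS at h
  simp only [Bool.and_eq_true] at h
  obtain ⟨⟨⟨⟨h1, h2⟩, h3⟩, h4⟩, h5⟩ := h
  obtain ⟨b1, b2, b3, b4, b5, b6, b7⟩ := pre_sound k h1 hT1 hT2 he2 hw2 hc1 hc10
  have hZ := Z_sound k h2 he2 hw1 hc2 b6 b7 b4
  obtain ⟨C, hC, hC0⟩ := C_sound k h3 he1 he2 hT1 hT2 hw1 hw10 b6 b7 b1 b2 b3
  obtain ⟨A, hA, hA0, hB0⟩ := Aj_sound k h4 he1 he2 hT1 hT2 hw1 hw10 b6 b7 hc1 hZ b4 b1 b2 b3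
  unfold kFin at h5
  simp only [Bool.and_eq_true, Bool.or_eq_true, decide_eq_true_eq] at h5
  obtain ⟨⟨⟨⟨⟨⟨⟨⟨⟨a1, a2⟩, a3⟩, a4⟩, a5⟩, a6⟩, a7⟩, a8⟩, a9⟩, a10⟩ := h5
  have g6 : -(2 * (1 - (Z : ℝ) - e2 * W) / e2 ^ 2) ≤ m0 := by have := rc a6; push_cast at this; exact this
  have g9 : (Z : ℝ) * ((1 + 2 / R0) ^ 3 - 1) / 6 ≤ V0 ∨ (W : ℝ) * H0 / 3 * (1 + R0) / R0 ^ 2 ≤ V0 := by
    rcases a9 with a9 | a9
    · exact Or.inl (by have := rc a9; push_cast at this; exact this)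
    · exact Or.inr (by have := rc a9; push_cast at this; exact this)
  have g2 : 4 * (e2 : ℝ) * (1 - c1) - 6 ≤ L0 * e2 ^ 2 := by have := rc a2; push_cast at this; exact this
  have hL := wL_le k he2 b4 hc10 hc1 g2
  have hg := gam_ge k he2 b4 b6 hZ
  exact leafS k (C0 := C0) (A0 := A0) (B0 := B0) (L0 := L0) (m0 := m0) (R0 := R0) (V0 := V0) (T2 := T2)
    (w2 := W) (c2 := Z) (H0 := H0) hC hC0 (by have := rc a1; push_cast at this; exact this) hA hA0 hB0 hL hT2 b6 hZ b7 (by linarith)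
    (by have := rc a3; push_cast at this; exact this) (by have := rc a4; push_cast at this; exact this) (by have := rc a5; push_cast at this; exact this) (by linarith)
    (by have := rcl a7; push_cast at this; exact this) (by have := rc a8; push_cast at this; exact this) g9 (by have := rc a10; push_cast at this; exact this)

lemma E_sound {e T ω H c : ℝ} (k : NK e T ω H c) {i : ℕ}
    {e1 e2 T1 T2 w1 w2 c1 H0 W C0 p : ℚ}
    (h : kE i e1 e2 T1 T2 w1 w2 c1 H0 W C0 p = true)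
    (he1 : (e1 : ℝ) ≤ e) (he2 : e ≤ e2) (hT1 : (T1 : ℝ) ≤ T) (hT2 : T ≤ T2) (hw1 : (w1 : ℝ) ≤ ω)
    (hw2 : ω ≤ w2) (hc1 : (c1 : ℝ) ≤ c) (hw10 : (0 : ℝ) ≤ w1) (hc10 : (0 : ℝ) ≤ c1) :
    ECond e T ω H := by
  unfold kE at h
  simp only [Bool.and_eq_true, decide_eq_true_eq] at h
  obtain ⟨⟨⟨⟨⟨h1, h3⟩, a1⟩, a2⟩, a3⟩, a4⟩ := h
  obtain ⟨b1, b2, b3, b4, b5, b6, b7⟩ := pre_sound k h1 hT1 hT2 he2 hw2 hc1 hc10
  obtain ⟨C, hC, hC0⟩ := C_sound k h3 he1 he2 hT1 hT2 hw1 hw10 b6 b7 b1 b2 b3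
  have g3 : (p : ℝ) ≤ 2 / 25 := by have := rc a3; push_cast at this; exact this
  have g4 : (1 + (p : ℝ)) ^ 2 ≤ (1 - 33 / 10 * p) * (C0 - 1 - p) := by have := rc a4; push_cast at this; exact this
  refine leafE k (C0 := C0) (p := p) he2 b6 b7 hC hC0 (by have := rcl a1; push_cast at this; exact this) (by have := rc a2; push_cast at this; exact this)
    (by norm_num at g3 ⊢; linarith) ?_
  have : (3.3 : ℝ) = 33 / 10 := by norm_num
  rw [this]; exact g4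

lemma em_sound {e T ω H c : ℝ} (k : NK e T ω H c) {kd : ℕ}
    {e1 e2 T1 T2 w1 w2 c1 c2 H0 W Z : ℚ}
    (h : kEm kd e1 e2 T1 T2 w1 w2 c1 c2 H0 W Z = true)
    (he2 : e ≤ e2) (hT1 : (T1 : ℝ) ≤ T) (hT2 : T ≤ T2) (hw1 : (w1 : ℝ) ≤ ω)
    (hw2 : ω ≤ w2) (hc1 : (c1 : ℝ) ≤ c) (hc2 : c ≤ c2) (hc10 : (0 : ℝ) ≤ c1) : False := by
  match kd, h with
  | 0, h => unfold kEm at h; exact absurd h (by simp)
  | 1, h =>
    unfold kEm at h
    simp only [Bool.and_eq_true, decide_eq_true_eq] at h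
    have h1 : 4 * (e2 : ℝ) * (1 - c1) - 6 < w1 * e2 ^ 2 := by have := rcl h.1; push_cast at this; exact this
    have h2 : (e2 : ℝ) ≤ 3 := by have := rc h.2; push_cast at this; exact this
    have he0 := k.e0
    have he2p : (0 : ℝ) < e2 := by linarith
    have h3 : wL e c ≤ (4 * (e2 : ℝ) * (1 - c1) - 6) / e2 ^ 2 := by
      apply wL_le k he2 h2 hc10 hc1
      rw [div_mul_cancel₀ _ (by positivity)]
    have h4 : (4 * (e2 : ℝ) * (1 - c1) - 6) / e2 ^ 2 < w1 := by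
      rw [div_lt_iff₀ (by positivity)]; exact h1
    have := wL_ge k
    linarith
  | (n + 2), h =>
    unfold kEm at h
    simp only [Bool.and_eq_true, decide_eq_true_eq] at h
    obtain ⟨⟨h1, h2⟩, h3⟩ := h
    obtain ⟨b1, b2, b3, b4, b5, b6, b7⟩ := pre_sound k h1 hT1 hT2 he2 hw2 hc1 hc10
    have hZ := Z_sound k h2 he2 hw1 hc2 b6 b7 b4
    have : (Z : ℝ) < c1 := rcl h3
    linarith

lemma mid_split {x D : ℝ} (m : ℕ) : x ≤ (m : ℝ) / D ∨ (m : ℝ) / D ≤ x := le_total _ _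

theorem sound (t : Tr) : ∀ e1 e2 T1 T2 w1 w2 c1 c2 : ℕ, chk t e1 e2 T1 T2 w1 w2 c1 c2 = true →
    ∀ {e T ω H c : ℝ}, NK e T ω H c → (e1 : ℝ) / 18874368 ≤ e → e ≤ (e2 : ℝ) / 18874368 →
    (T1 : ℝ) / 18874368 ≤ T → T ≤ (T2 : ℝ) / 18874368 → (w1 : ℝ) / 18874368 ≤ ω → ω ≤ (w2 : ℝ) / 18874368 →
    (c1 : ℝ) / 18874368 ≤ c → c ≤ (c2 : ℝ) / 18874368 → ECond e T ω H ∨ SCond e T ω H c := by
  induction t with
  | em kd H0 W Z =>
    intro e1 e2 T1 T2 w1 w2 c1 c2 h e T ω H c k x1 x2 x3 x4 x5 x6 x7 x8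
    exfalso
    unfold chk at h
    simp only [Bool.or_eq_true, Nat.blt_eq] at h
    have heT := k.eT
    rcases h with h | h
    · have : (T2 : ℝ) < e1 := by exact_mod_cast h
      have : (T2 : ℝ) / 18874368 < (e1 : ℝ) / 18874368 := by
        apply div_lt_div_of_pos_right this (by norm_num)
      linarith
    · have y1 : e ≤ ((qb (min e2 T2) : ℚ) : ℝ) := min_q x2 (heT.trans x4)
      have y2 : ((qb (max T1 e1) : ℚ) : ℝ) ≤ T := max_q x3 (x1.trans heT)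
      exact em_sound k h y1 y2 (by rw [qb_cast]; exact x4) (by rw [qb_cast]; exact x5)
        (by rw [qb_cast]; exact x6) (by rw [qb_cast]; exact x7) (by rw [qb_cast]; exact x8)
        (by rw [qb_cast]; positivity)
  | co =>
    intro e1 e2 T1 T2 w1 w2 c1 c2 h e T ω H c k x1 x2 x3 x4 x5 x6 x7 x8
    left
    unfold chk at h
    simp only [Bool.and_eq_true, Nat.ble_eq] at h
    obtain ⟨⟨h1, h2⟩, h3⟩ := h
    have g1 : (32 : ℝ) * w2 ≤ 18874368 := by exact_mod_cast h1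
    have g2 : (5 : ℝ) * e2 ≤ 150994944 := by exact_mod_cast h2
    have g3 : (264241152 : ℝ) ≤ 5 * T1 := by exact_mod_cast h3
    apply corner k
    · refine x6.trans ?_
      rw [div_le_iff₀ (by norm_num)]; linarith
    · refine x2.trans ?_
      rw [div_le_iff₀ (by norm_num)]; linarith
    · refine le_trans ?_ x3
      rw [le_div_iff₀ (by norm_num)]; linarith
  | E i H0 W C0 p =>
    intro e1 e2 T1 T2 w1 w2 c1 c2 h e T ω H c k x1 x2 x3 x4 x5 x6 x7 x8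
    left
    unfold chk at h
    have heT := k.eT
    have y1 : e ≤ ((qb (min e2 T2) : ℚ) : ℝ) := min_q x2 (heT.trans x4)
    have y2 : ((qb (max T1 e1) : ℚ) : ℝ) ≤ T := max_q x3 (x1.trans heT)
    exact E_sound k h (by rw [qb_cast]; exact x1) y1 y2 (by rw [qb_cast]; exact x4)
      (by rw [qb_cast]; exact x5) (by rw [qb_cast]; exact x6) (by rw [qb_cast]; exact x7)
      (by rw [qb_cast]; positivity) (by rw [qb_cast]; positivity)
  | S i j H0 W Z C0 A0 B0 L0 m0 R0 V0 =>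
    intro e1 e2 T1 T2 w1 w2 c1 c2 h e T ω H c k x1 x2 x3 x4 x5 x6 x7 x8
    right
    unfold chk at h
    have heT := k.eT
    have y1 : e ≤ ((qb (min e2 T2) : ℚ) : ℝ) := min_q x2 (heT.trans x4)
    have y2 : ((qb (max T1 e1) : ℚ) : ℝ) ≤ T := max_q x3 (x1.trans heT)
    exact S_sound k h (by rw [qb_cast]; exact x1) y1 y2 (by rw [qb_cast]; exact x4)
      (by rw [qb_cast]; exact x5) (by rw [qb_cast]; exact x6) (by rw [qb_cast]; exact x7)
      (by rw [qb_cast]; exact x8) (by rw [qb_cast]; positivity) (by rw [qb_cast]; positivity)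
  | sp v l r ihl ihr =>
    intro e1 e2 T1 T2 w1 w2 c1 c2 h e T ω H c k x1 x2 x3 x4 x5 x6 x7 x8
    match v, h with
    | 0, h =>
      unfold chk at h
      simp only [Bool.and_eq_true] at h
      rcases mid_split (x := e) (D := 18874368) ((e1 + e2) / 2) with hm | hm
      · exact ihl _ _ _ _ _ _ _ _ h.1 k x1 hm x3 x4 x5 x6 x7 x8
      · exact ihr _ _ _ _ _ _ _ _ h.2 k hm x2 x3 x4 x5 x6 x7 x8
    | 1, h =>
      unfold chk at h
      simp only [Bool.and_eq_true] at h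
      rcases mid_split (x := T) (D := 18874368) ((T1 + T2) / 2) with hm | hm
      · exact ihl _ _ _ _ _ _ _ _ h.1 k x1 x2 x3 hm x5 x6 x7 x8
      · exact ihr _ _ _ _ _ _ _ _ h.2 k x1 x2 hm x4 x5 x6 x7 x8
    | 2, h =>
      unfold chk at h
      simp only [Bool.and_eq_true] at h
      rcases mid_split (x := ω) (D := 18874368) ((w1 + w2) / 2) with hm | hm
      · exact ihl _ _ _ _ _ _ _ _ h.1 k x1 x2 x3 x4 x5 hm x7 x8
      · exact ihr _ _ _ _ _ _ _ _ h.2 k x1 x2 x3 x4 hm x6 x7 x8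
    | (n + 3), h =>
      unfold chk at h
      simp only [Bool.and_eq_true] at h
      rcases mid_split (x := c) (D := 18874368) ((c1 + c2) / 2) with hm | hm
      · exact ihl _ _ _ _ _ _ _ _ h.1 k x1 x2 x3 x4 x5 x6 x7 hm
      · exact ihr _ _ _ _ _ _ _ _ h.2 k x1 x2 x3 x4 x5 x6 hm x8

end Pool.Agent.helper93.NU
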